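import Pool.Agent.Helper95.AF.Defs
import Pool.Agent.Helper82.AN.Eta
import Pool.Agent.Helper82.AN.PtsP
import Pool.Agent.Helper33.AF.Conc
import Pool.Agent.Helper10.AF.Amp
import Pool.Agent.Helper4.AF.Meas

/-! # Project AF: level step, one parameter

`lev_probS_of`: from `lev_exp`, `conc`, `amp_ok` and `rr_meas`. With `κ = pp i * et i`, `M` about `20 G / (et (i+1) κ)` translates,
`log Q = κ/10 * N * L` (`N = J (n + 5)`), the base of the product is at most `e^2 e^J`. -/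

set_option autoImplicit false
open MeasureTheory Real Set Filter Topology
open scoped ENNReal

namespace Pool.Agent.Helper25.AF

open Pool.Agent.Helper18.UC (nn LL sqo rep toT)
open Pool.Agent.Helper46.QP (TT Td)
open Pool.Agent.Helper82.AN (Ik Ow lawL wt bas eta Hw sq SepR)
open Pool.Agent.Helper95.AF

variable {d : ℕ}

/-! ### the constants -/

lemma et_pos (i : ℕ) : 0 < et i := by unfold et; positivity

lemma et_succ (i : ℕ) : et (i + 1) = et i / 2 := by
  unfold et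
  rw [pow_succ]
  field_simp

lemma et_le (i : ℕ) : et i ≤ 1 / 200 := by
  unfold et
  have h : (1:ℝ) ≤ 2 ^ i := one_le_pow₀ (by norm_num)
  rw [div_le_div_iff₀ (by positivity) (by norm_num)]
  linarith

lemma pp_pos (i : ℕ) : 0 < pp i := by
  induction i with
  | zero => unfold pp; norm_num
  | succ i ih =>
    unfold pp
    have := et_pos i
    positivity

lemma pp_succ (i : ℕ) : pp (i + 1) = pp i * et i / 16 := rfl

lemma pp_le_et (i : ℕ) : pp i ≤ et i / 100 := by
  induction i with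
  | zero => unfold pp et; norm_num
  | succ i ih =>
    rw [pp_succ, et_succ]
    have h1 := et_pos i
    have h2 := et_le i
    have h3 := pp_pos i
    nlinarith

lemma pp_le (i : ℕ) : pp i ≤ 1 / 20000 := by
  have h1 := pp_le_et i
  have h2 := et_le i
  linarith

lemma two_pow_le_exp (n : ℕ) : (2:ℝ) ^ n ≤ Real.exp n := by
  have h : (2:ℝ) ≤ Real.exp 1 := by
    have := Real.add_one_le_exp (1:ℝ)
    linarith
  calc (2:ℝ) ^ n ≤ (Real.exp 1) ^ n := pow_le_pow_left₀ (by norm_num) h n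
    _ = Real.exp n := by rw [← Real.exp_nat_mul, mul_one]

lemma et_inv_le (i : ℕ) : (et i)⁻¹ ≤ Real.exp (8 + i) := by
  have h1 : (et i)⁻¹ = 200 * 2 ^ i := by
    unfold et
    rw [one_div, inv_inv]
  have h2 := two_pow_le_exp (8 + i)
  push_cast at h2
  rw [h1]
  refine le_trans ?_ h2
  rw [pow_add]
  have : (0:ℝ) < 2 ^ i := by positivity
  nlinarith

lemma pp_inv_le (i : ℕ) : (pp i)⁻¹ ≤ Real.exp (20 * ((i:ℝ) + 1) ^ 2) := by
  induction i with
  | zero =>
    have h1 := two_pow_le_exp 20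
    have h2 : (pp 0)⁻¹ = 20000 := by unfold pp; norm_num
    rw [h2]
    push_cast at h1 ⊢
    refine le_trans (by norm_num) (h1.trans (le_of_eq ?_))
    norm_num
  | succ i ih =>
    have h1 : (pp (i + 1))⁻¹ = (pp i)⁻¹ * (et i)⁻¹ * 16 := by
      rw [pp_succ]
      have := pp_pos i
      have := et_pos i
      field_simp
    have h2 := et_inv_le i
    have h3 := two_pow_le_exp 4
    push_cast at h3
    have h4 : (16:ℝ) ≤ Real.exp 4 := by
      refine le_trans (by norm_num) h3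
    rw [h1]
    calc (pp i)⁻¹ * (et i)⁻¹ * 16 ≤ Real.exp (20 * ((i:ℝ) + 1) ^ 2) * Real.exp (8 + i) * Real.exp 4 := by
          have := pp_pos i
          have := et_pos i
          gcongr
      _ = Real.exp (20 * ((i:ℝ) + 1) ^ 2 + (8 + i) + 4) := by
          rw [Real.exp_add (20 * ((i:ℝ) + 1) ^ 2 + (8 + i)), Real.exp_add (20 * ((i:ℝ) + 1) ^ 2)]
      _ ≤ Real.exp (20 * (((i + 1 : ℕ) : ℝ) + 1) ^ 2) := by
          rw [Real.exp_le_exp]
          push_cast
          have : (0:ℝ) ≤ i := Nat.cast_nonneg i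
          nlinarith

/-- threshold of the level step -/
noncomputable def KK (Z : ℝ) (i : ℕ) : ℝ := Z / (pp i ^ 2 * et i * et (i + 1))

lemma KK_le {Z : ℝ} (hZ : 0 ≤ Z) (i : ℕ) : KK Z i ≤ Real.exp ((60 + Z) * ((i:ℝ) + 1) ^ 2) := by
  have h1 := pp_inv_le i
  have h2 := et_inv_le i
  have h3 := et_inv_le (i + 1)
  have hp := pp_pos i
  have he := et_pos i
  have he1 := et_pos (i + 1)
  have h4 : KK Z i = Z * ((pp i)⁻¹ ^ 2 * (et i)⁻¹ * (et (i + 1))⁻¹) := by
    unfold KK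
    field_simp
  have hi : (0:ℝ) ≤ i := Nat.cast_nonneg i
  have hZe : Z ≤ Real.exp (Z * ((i:ℝ) + 1) ^ 2) := by
    have h5 := Real.add_one_le_exp (Z * ((i:ℝ) + 1) ^ 2)
    have h6 : (1:ℝ) ≤ ((i:ℝ) + 1) ^ 2 := by nlinarith
    have h7 : Z * 1 ≤ Z * ((i:ℝ) + 1) ^ 2 := mul_le_mul_of_nonneg_left h6 hZ
    linarith
  rw [h4]
  calc Z * ((pp i)⁻¹ ^ 2 * (et i)⁻¹ * (et (i + 1))⁻¹)
      ≤ Real.exp (Z * ((i:ℝ) + 1) ^ 2) * (Real.exp (20 * ((i:ℝ) + 1) ^ 2) ^ 2 * Real.exp (8 + i) *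
        Real.exp (8 + ((i + 1 : ℕ) : ℝ))) := by gcongr
    _ = Real.exp (Z * ((i:ℝ) + 1) ^ 2 + (2 * (20 * ((i:ℝ) + 1) ^ 2) + (8 + i) + (8 + ((i + 1 : ℕ) : ℝ)))) := by
        rw [← Real.exp_nat_mul, ← Real.exp_add, ← Real.exp_add, ← Real.exp_add]
        norm_num
    _ ≤ _ := by
        rw [Real.exp_le_exp]
        push_cast
        nlinarith

/-! ### measurability -/

lemma shb_meas (m : ℕ) : Measurable fun b : ℕ → ℝ => shb b m := by
  refine measurable_pi_lambda _ fun j => ?_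
  exact measurable_pi_apply (j + m)

lemma EvS_meas (hrr : ∀ (a : ℝ) (n : ℕ) {ρ δ cap : ℝ}, 0 ≤ cap → 0 ≤ δ → Measurable (rr a n ρ δ cap)) (a : ℝ) {L : ℝ}
    (hL : 0 ≤ L) (i n J : ℕ) (y : ℝ) : MeasurableSet (EvS a L i n J y) := by
  have h1 : ∀ i n : ℕ, Measurable (Rl a L i n) := fun i n => hrr a n (by positivity) (by positivity)
  unfold EvS
  refine measurableSet_lt (h1 _ _) ?_
  refine Measurable.sub (Measurable.sub ?_ measurable_const) measurable_const
  exact Finset.measurable_sum _ fun j _ => (h1 _ _).comp (shb_meas _)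

lemma sq_frc_meas (γ : ℝ) {k : ℕ} {e : Fin k → Td d → ℝ} (he : ∀ i, Continuous (e i)) (U : Fin (k + 1) → ℝ) (α : Td d) :
    Measurable fun p : Ow d × Td d => Pool.Agent.Helper82.AN.sq α (frc γ e U p.1) p.2 := by
  refine measurable_pi_lambda _ fun j => ?_
  unfold Pool.Agent.Helper82.AN.sq frc
  have h1 : Measurable fun p : Ow d × Td d => p.2 + j • α := measurable_snd.add_const _
  have h2 : Measurable fun p : Ow d × Td d => eta γ p.1 (p.2 + j • α) :=
    (Pool.Agent.Helper82.AN.eta_meas γ).comp (measurable_fst.prodMk h1)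
  refine Measurable.add ?_ (h2.const_mul _)
  exact Finset.measurable_sum _ fun i _ => ((he i).measurable.comp h1).const_mul _

lemma EvS_eq (a L : ℝ) (i n J : ℕ) (y : ℝ) : EvS a L i n J y = Bs a (Real.exp (-(pp i * n * L))) (Real.exp (-(2 * pp i * n * L)))
    (2 * n * L) (Real.exp (-(pp (i + 1) * (J * (n + 5) : ℕ) * L))) (Real.exp (-(2 * pp (i + 1) * (J * (n + 5) : ℕ) * L)))
    (2 * (J * (n + 5) : ℕ) * L) n J (et i * (J * (n + 5) : ℕ) * L + y) := by
  unfold EvS Bs Rl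
  simp only [sub_sub]

/-! ### the numbers -/

/-- the base of the product -/
lemma base_le {C G L a y Z : ℝ} {i n J : ℕ} (hC : 1 ≤ C) (hG : 1 ≤ G) (hL : 1 ≤ L) (hJ : 1 ≤ J)
    (hZ : Z = 21 * G + 60 + 50 * (2 * Real.log C + 78)) (hn : KK Z i ≤ n) (ha : |a| ≤ Real.exp (L + 1))
    (hy : -(et i / 2 * (J * (n + 5) : ℕ) * L) ≤ y) :
    Real.exp (pp i * et i / 10 * (J * (n + 5) : ℕ) * L) *
      (4 / (Real.exp (-(2 * pp (i + 1) * (J * (n + 5) : ℕ) * L)) * Real.exp (-(pp (i + 1) * (J * (n + 5) : ℕ) * L)) ^ 2)) *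
      Real.exp (-(pp i * (et i * (J * (n + 5) : ℕ) * L + y))) *
      (C * (|a| + 1) ^ 26 * (C / Real.exp (-(pp i * n * L))) ^ (12 * pp i)) ^ J ≤ 4 := by
  obtain ⟨N, hN⟩ : ∃ N : ℝ, N = ((J * (n + 5) : ℕ) : ℝ) := ⟨_, rfl⟩
  rw [← hN] at hy ⊢
  have hp := pp_pos i
  have he := et_pos i
  have he1 := et_pos (i + 1)
  have hpe := pp_le_et i
  have hp1 := pp_le i
  have hele := et_le i
  have hlC : 0 ≤ Real.log C := Real.log_nonneg hC
  have hJ1 : (1:ℝ) ≤ J := by exact_mod_cast hJ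
  have hn0 : (0:ℝ) ≤ n := Nat.cast_nonneg n
  have hNJ : (J:ℝ) * n ≤ N := by
    rw [hN]
    push_cast
    nlinarith
  have hN0 : 0 ≤ N := by rw [hN]; exact Nat.cast_nonneg _
  have ha0 : 0 ≤ |a| := abs_nonneg a
  -- one factor
  have h1 : |a| + 1 ≤ Real.exp (L + 2) := by
    have e1 : Real.exp (L + 2) = Real.exp (L + 1) * Real.exp 1 := by rw [← Real.exp_add]; ring_nf
    have e2 := Real.add_one_le_exp (1:ℝ)
    have e3 := Real.add_one_le_exp (L + 1)
    rw [e1]
    nlinarith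
  have h2 : (|a| + 1) ^ 26 ≤ Real.exp (26 * (L + 2)) := by
    calc (|a| + 1) ^ 26 ≤ Real.exp (L + 2) ^ 26 := pow_le_pow_left₀ (by positivity) h1 26
      _ = Real.exp (26 * (L + 2)) := by rw [← Real.exp_nat_mul]; norm_num
  have h3 : (C / Real.exp (-(pp i * n * L))) ^ (12 * pp i) ≤ C * Real.exp (12 * pp i * (pp i * n * L)) := by
    have e1 : C / Real.exp (-(pp i * n * L)) = C * Real.exp (pp i * n * L) := by
      rw [Real.exp_neg, div_inv_eq_mul]
    rw [e1, Real.mul_rpow (by linarith) (Real.exp_pos _).le, ← Real.exp_mul]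
    have e2 : C ^ (12 * pp i) ≤ C := by
      calc C ^ (12 * pp i) ≤ C ^ (1:ℝ) := Real.rpow_le_rpow_of_exponent_le hC (by linarith)
        _ = C := Real.rpow_one C
    have e3 : pp i * n * L * (12 * pp i) = 12 * pp i * (pp i * n * L) := by ring
    rw [e3]
    exact mul_le_mul_of_nonneg_right e2 (Real.exp_pos _).le
  have h4 : C * (|a| + 1) ^ 26 * (C / Real.exp (-(pp i * n * L))) ^ (12 * pp i) ≤
      Real.exp (2 * Real.log C + 26 * (L + 2) + 12 * pp i * (pp i * n * L)) := by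
    have e1 : Real.exp (2 * Real.log C + 26 * (L + 2) + 12 * pp i * (pp i * n * L)) =
        C * Real.exp (26 * (L + 2)) * (C * Real.exp (12 * pp i * (pp i * n * L))) := by
      rw [Real.exp_add, Real.exp_add, two_mul, Real.exp_add, Real.exp_log (by linarith)]
      ring
    rw [e1]
    refine mul_le_mul (mul_le_mul_of_nonneg_left h2 (by linarith)) h3 ?_ (by positivity)
    exact Real.rpow_nonneg (div_nonneg (by linarith) (Real.exp_pos _).le) _
  have h5 : (C * (|a| + 1) ^ 26 * (C / Real.exp (-(pp i * n * L))) ^ (12 * pp i)) ^ J ≤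
      Real.exp (J * (2 * Real.log C + 26 * (L + 2) + 12 * pp i * (pp i * n * L))) := by
    have e0 : 0 ≤ (C / Real.exp (-(pp i * n * L))) ^ (12 * pp i) :=
      Real.rpow_nonneg (div_nonneg (by linarith) (Real.exp_pos _).le) _
    calc _ ≤ (Real.exp (2 * Real.log C + 26 * (L + 2) + 12 * pp i * (pp i * n * L))) ^ J := by
          refine pow_le_pow_left₀ ?_ h4 J
          have : 0 ≤ C * (|a| + 1) ^ 26 := by positivity
          exact mul_nonneg this e0
      _ = _ := by rw [← Real.exp_nat_mul]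
  have h6 : 4 / (Real.exp (-(2 * pp (i + 1) * N * L)) * Real.exp (-(pp (i + 1) * N * L)) ^ 2) =
      4 * Real.exp (pp i * et i / 4 * N * L) := by
    rw [← Real.exp_nat_mul, ← Real.exp_add, div_eq_mul_inv, ← Real.exp_neg, pp_succ]
    congr 2
    push_cast
    ring
  rw [h6]
  calc Real.exp (pp i * et i / 10 * N * L) * (4 * Real.exp (pp i * et i / 4 * N * L)) *
        Real.exp (-(pp i * (et i * N * L + y))) *
        (C * (|a| + 1) ^ 26 * (C / Real.exp (-(pp i * n * L))) ^ (12 * pp i)) ^ J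
      ≤ Real.exp (pp i * et i / 10 * N * L) * (4 * Real.exp (pp i * et i / 4 * N * L)) *
        Real.exp (-(pp i * (et i * N * L + y))) *
        Real.exp (J * (2 * Real.log C + 26 * (L + 2) + 12 * pp i * (pp i * n * L))) :=
        mul_le_mul_of_nonneg_left h5 (by positivity)
    _ = 4 * Real.exp (pp i * et i / 10 * N * L + pp i * et i / 4 * N * L + -(pp i * (et i * N * L + y)) +
        J * (2 * Real.log C + 26 * (L + 2) + 12 * pp i * (pp i * n * L))) := by
        rw [Real.exp_add, Real.exp_add, Real.exp_add]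
        ring
    _ ≤ 4 * Real.exp 0 := by
        refine mul_le_mul_of_nonneg_left ?_ (by norm_num)
        rw [Real.exp_le_exp]
        -- the margin
        have e1 : 50 * (2 * Real.log C + 78) ≤ n * (pp i * et i) := by
          have e2 : Z ≤ n * (pp i ^ 2 * et i * et (i + 1)) := by
            unfold KK at hn
            rwa [div_le_iff₀ (by positivity)] at hn
          have e3 : n * (pp i ^ 2 * et i * et (i + 1)) ≤ n * (pp i * et i) := by
            refine mul_le_mul_of_nonneg_left ?_ hn0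
            have e4 : pp i ^ 2 * et i * et (i + 1) = (pp i * et i) * (pp i * et (i + 1)) := by ring
            rw [e4]
            have e5 : et (i + 1) ≤ 1 := (et_le _).trans (by norm_num)
            have e6 : pp i * et (i + 1) ≤ 1 := by nlinarith
            exact mul_le_of_le_one_right (by positivity) e6
          rw [hZ] at e2
          linarith
        have e7 : J * (2 * Real.log C + 26 * (L + 2)) ≤ pp i * et i / 50 * N * L := by
          have e8 : 2 * Real.log C + 26 * (L + 2) ≤ (2 * Real.log C + 78) * L := by nlinarith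
          have e9 : J * ((2 * Real.log C + 78) * L) ≤ J * ((n * (pp i * et i) / 50) * L) := by
            refine mul_le_mul_of_nonneg_left (mul_le_mul_of_nonneg_right ?_ (by linarith)) (by linarith)
            linarith
          have e10 : J * ((n * (pp i * et i) / 50) * L) = pp i * et i / 50 * (J * n) * L := by ring
          have e11 : pp i * et i / 50 * (J * n) * L ≤ pp i * et i / 50 * N * L :=
            mul_le_mul_of_nonneg_right (mul_le_mul_of_nonneg_left hNJ (by positivity)) (by linarith)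
          have e12 : J * (2 * Real.log C + 26 * (L + 2)) ≤ J * ((2 * Real.log C + 78) * L) :=
            mul_le_mul_of_nonneg_left e8 (by linarith)
          linarith
        have e13 : J * (12 * pp i * (pp i * n * L)) ≤ 12 * pp i * pp i * N * L := by
          have e14 : J * (12 * pp i * (pp i * n * L)) = 12 * pp i * pp i * (J * n) * L := by ring
          rw [e14]
          exact mul_le_mul_of_nonneg_right (mul_le_mul_of_nonneg_left hNJ (by positivity)) (by linarith)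
        have e15 : 12 * pp i * pp i * N * L ≤ 12 * (et i / 100) * pp i * N * L := by
          refine mul_le_mul_of_nonneg_right (mul_le_mul_of_nonneg_right (mul_le_mul_of_nonneg_right ?_ hp.le) hN0) (by linarith)
          linarith
        have e16 : pp i * -(et i / 2 * N * L) ≤ pp i * y := mul_le_mul_of_nonneg_left hy hp.le
        have e17 : 0 ≤ pp i * et i * N * L := by positivity
        nlinarith
    _ = 4 := by rw [Real.exp_zero, mul_one]

/-- the noise is small enough -/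
lemma noise_le {C' G L a u Z x : ℝ} {i n J M : ℕ} {g : ℝ} (hC' : 1 ≤ C') (hL : C' ≤ L) (hJ : 1 ≤ J)
    (hx0 : 0 < x) (hx : x < 1) (hZ : 21 * G ≤ Z) (hM1 : 1 ≤ M) (hMu : (M:ℝ) ≤ 21 * G / (et (i + 1) * (pp i * et i)))
    (hnx : KK Z i * ((J * (n + 5) : ℕ) : ℝ) ^ x ≤ n) (ha : Real.exp L ≤ |a|) (hu : Real.exp (-((L + 1) / 4000)) ≤ |u|)
    (hg : g ≤ C' * ((M * (J * (n + 5)) : ℕ) : ℝ) ^ x) :
    Real.exp (-(pp i * n * L)) / (10 * (|a| + 1)) ^ 5 ≤ |u| * Real.exp (-g) / 20 := by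
  have hp := pp_pos i
  have he := et_pos i
  have he1 := et_pos (i + 1)
  have hL1 : 1 ≤ L := hC'.trans hL
  have hn0 : (0:ℝ) ≤ n := Nat.cast_nonneg n
  have hM1' : (1:ℝ) ≤ M := by exact_mod_cast hM1
  obtain ⟨N, hN⟩ : ∃ N : ℝ, N = ((J * (n + 5) : ℕ) : ℝ) := ⟨_, rfl⟩
  have hN0 : 0 ≤ N := by rw [hN]; exact Nat.cast_nonneg _
  have hg1 : g ≤ pp i * n * L := by
    refine hg.trans ?_
    have e1 : ((M * (J * (n + 5)) : ℕ) : ℝ) ^ x = (M:ℝ) ^ x * N ^ x := by
      rw [hN, Nat.cast_mul, Real.mul_rpow (by positivity) (by positivity)]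
    have e2 : (M:ℝ) ^ x ≤ M := by
      calc (M:ℝ) ^ x ≤ (M:ℝ) ^ (1:ℝ) := Real.rpow_le_rpow_of_exponent_le hM1' hx.le
        _ = M := Real.rpow_one _
    have e3 : (M:ℝ) ≤ pp i * KK Z i := by
      refine hMu.trans ?_
      unfold KK
      rw [mul_div_assoc', div_le_div_iff₀ (by positivity) (by positivity)]
      have e4 : 21 * G * (pp i ^ 2 * et i * et (i + 1)) ≤ Z * (pp i ^ 2 * et i * et (i + 1)) :=
        mul_le_mul_of_nonneg_right hZ (by positivity)
      linarith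
    have hNx : 0 ≤ N ^ x := Real.rpow_nonneg hN0 _
    rw [e1]
    rw [← hN] at hnx
    calc C' * ((M:ℝ) ^ x * N ^ x) ≤ C' * ((pp i * KK Z i) * N ^ x) := by
          refine mul_le_mul_of_nonneg_left (mul_le_mul_of_nonneg_right (e2.trans e3) hNx) (by linarith)
      _ = C' * pp i * (KK Z i * N ^ x) := by ring
      _ ≤ C' * pp i * n := mul_le_mul_of_nonneg_left hnx (by positivity)
      _ ≤ L * pp i * n := mul_le_mul_of_nonneg_right (mul_le_mul_of_nonneg_right hL hp.le) hn0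
      _ = pp i * n * L := by ring
  have h1 : 20 * Real.exp (5 * L) ≤ (10 * (|a| + 1)) ^ 5 := by
    have e1 : Real.exp (5 * L) = Real.exp L ^ 5 := by rw [← Real.exp_nat_mul]; norm_num
    have e2 : Real.exp L ^ 5 ≤ (|a| + 1) ^ 5 := pow_le_pow_left₀ (Real.exp_pos _).le (by linarith) 5
    have e3 : 0 ≤ (|a| + 1) ^ 5 := by positivity
    rw [e1, mul_pow]
    nlinarith
  calc Real.exp (-(pp i * n * L)) / (10 * (|a| + 1)) ^ 5 ≤ Real.exp (-(pp i * n * L)) / (20 * Real.exp (5 * L)) :=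
        div_le_div_of_nonneg_left (Real.exp_pos _).le (by positivity) h1
    _ = Real.exp (-(5 * L)) * Real.exp (-(pp i * n * L)) / 20 := by
        rw [Real.exp_neg (5 * L)]
        field_simp
    _ ≤ |u| * Real.exp (-g) / 20 := by
        refine div_le_div_of_nonneg_right (mul_le_mul ?_ ?_ (Real.exp_pos _).le (abs_nonneg _)) (by norm_num)
        · refine le_trans ?_ hu
          rw [Real.exp_le_exp]
          linarith
        · rw [Real.exp_le_exp]
          linarith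

/-- the final comparison of the exponents -/
lemma final_le {G L Z C : ℝ} {i n J M : ℕ} (hG : 1 ≤ G) (hL : 1 ≤ L) (hJ : 1 ≤ J) (hC : 1 ≤ C)
    (hZ : Z = 21 * G + 60 + 50 * (2 * Real.log C + 78)) (hn : KK Z i ≤ n)
    (hMl : 20 * G / (et (i + 1) * (pp i * et i)) ≤ M) :
    (M:ℝ) * (J + 2) + -(M * et (i + 1) * (pp i * et i / 10 * (J * (n + 5) : ℕ) * L)) ≤ -(G * (J * (n + 5) : ℕ) * L) := by
  obtain ⟨N, hN⟩ : ∃ N : ℝ, N = ((J * (n + 5) : ℕ) : ℝ) := ⟨_, rfl⟩
  rw [← hN]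
  have hp := pp_pos i
  have he := et_pos i
  have he1 := et_pos (i + 1)
  have hlC : 0 ≤ Real.log C := Real.log_nonneg hC
  have hJ1 : (1:ℝ) ≤ J := by exact_mod_cast hJ
  have hn0 : (0:ℝ) ≤ n := Nat.cast_nonneg n
  have hM0 : (0:ℝ) ≤ M := Nat.cast_nonneg M
  have hNJ : (J:ℝ) * n ≤ N := by
    rw [hN]
    push_cast
    nlinarith
  have hN0 : 0 ≤ N := by rw [hN]; exact Nat.cast_nonneg _
  have e1 : 60 ≤ n * (et (i + 1) * (pp i * et i)) := by
    have e2 : Z ≤ n * (pp i ^ 2 * et i * et (i + 1)) := by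
      unfold KK at hn
      rwa [div_le_iff₀ (by positivity)] at hn
    have e3 : n * (pp i ^ 2 * et i * et (i + 1)) ≤ n * (et (i + 1) * (pp i * et i)) := by
      refine mul_le_mul_of_nonneg_left ?_ hn0
      have e4 : pp i ^ 2 * et i * et (i + 1) = pp i * (et (i + 1) * (pp i * et i)) := by ring
      rw [e4]
      have e5 : pp i ≤ 1 := (pp_le i).trans (by norm_num)
      exact mul_le_of_le_one_left (by positivity) e5
    rw [hZ] at e2
    linarith
  have e6 : ((J:ℝ) + 2) ≤ et (i + 1) * (pp i * et i) / 20 * N * L := by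
    have e7 : ((J:ℝ) + 2) ≤ 3 * J := by linarith
    have e8 : 3 * (J:ℝ) ≤ (n * (et (i + 1) * (pp i * et i)) / 20) * J := by nlinarith
    have e9 : (n * (et (i + 1) * (pp i * et i)) / 20) * J = et (i + 1) * (pp i * et i) / 20 * (J * n) := by ring
    have e10 : et (i + 1) * (pp i * et i) / 20 * (J * n) ≤ et (i + 1) * (pp i * et i) / 20 * N :=
      mul_le_mul_of_nonneg_left hNJ (by positivity)
    have e11 : et (i + 1) * (pp i * et i) / 20 * N * 1 ≤ et (i + 1) * (pp i * et i) / 20 * N * L :=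
      mul_le_mul_of_nonneg_left hL (by positivity)
    linarith
  have e12 : (M:ℝ) * (J + 2) ≤ M * (et (i + 1) * (pp i * et i) / 20 * N * L) := mul_le_mul_of_nonneg_left e6 hM0
  have e13 : 20 * G ≤ M * (et (i + 1) * (pp i * et i)) := by
    rwa [div_le_iff₀ (by positivity)] at hMl
  have e14 : G * (N * L) ≤ M * (et (i + 1) * (pp i * et i)) / 20 * (N * L) :=
    mul_le_mul_of_nonneg_right (by linarith) (by positivity)
  have e15 : M * et (i + 1) * (pp i * et i / 10 * N * L) =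
      2 * (M * (et (i + 1) * (pp i * et i)) / 20 * (N * L)) := by ring
  have e16 : M * (et (i + 1) * (pp i * et i) / 20 * N * L) = M * (et (i + 1) * (pp i * et i)) / 20 * (N * L) := by ring
  rw [e15]
  rw [e16] at e12
  linarith

/-! ### the theorem -/

/-- the statement of `lev_exp` -/
def LevExp : Prop := ∃ C : ℝ, 1 ≤ C ∧ ∀ (d : ℕ) (γ : ℝ) (k : ℕ) (e : Fin k → Td d → ℝ) (U : Fin (k + 1) → ℝ) (α : Td d)
    (r₀ a ρ δ cap ρ' δ' cap' y p Q : ℝ) (n J M N P : ℕ) (β : Fin M → Td d), 0 < γ → (∀ i, Continuous (e i)) → U 0 ≠ 0 →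
    0 < r₀ → SepR α r₀ (J * (n + 5)) M β → 1 ≤ N → 1 ≤ P →
    2 * ((M * (J * (n + 5)) : ℕ) : ℝ) ≤ (2 * N * r₀) ^ (2 * P) → 1 ≤ |a| → 0 < ρ → ρ ≤ 1 → 0 < ρ' → ρ' ≤ 1 → 0 < δ →
    0 < δ' → 0 < p → p ≤ 1 / 4 → 0 ≤ cap → J * cap ≤ cap' → δ ≤ Real.exp (-(p * cap)) → 0 ≤ y → 0 ≤ Q →
    ρ / (10 * (|a| + 1)) ^ 5 ≤ |U 0| * Real.exp (-((P * N : ℝ) ^ γ)) / 20 →
    ∫⁻ w, ∏ l, (1 + ENNReal.ofReal Q * (Bs a ρ δ cap ρ' δ' cap' n J y).indicator 1
      (Pool.Agent.Helper82.AN.sq α (frc γ e U w) (β l))) ∂lawL d ≤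
      (ENNReal.ofReal (Real.exp J * (1 + Q * (4 / (δ' * ρ' ^ 2)) * Real.exp (-(p * y)) *
        (C * (|a| + 1) ^ 26 * (C / ρ) ^ (12 * p)) ^ J))) ^ M

/-- **LPS**: level step, one parameter -/
theorem lev_probS_of (hexp : LevExp) {γ τ x : ℝ} (hd : 0 < d) (hγ : 0 < γ) (h1 : 1 / d ≤ τ) (h2 : τ * γ < x) (hx : x < 1)
    (G : ℝ) (hG : 1 ≤ G) :
    ∃ (c : ℝ) (K : ℕ → ℝ), (∀ i : ℕ, K i ≤ Real.exp (c * ((i : ℝ) + 1) ^ 2)) ∧
      ∀ D : ℝ, 0 < D → ∃ L₀ : ℝ, 1 ≤ L₀ ∧ ∀ L : ℝ, L₀ ≤ L → ∀ (i n J : ℕ), 1 ≤ J → K i ≤ n →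
      K i * ((J * (n + 5) : ℕ) : ℝ) ^ x ≤ n →
      ∀ (k : ℕ) (e : Fin k → Td d → ℝ) (U : Fin (k + 1) → ℝ) (a : ℝ) (α : Td d) (y : ℝ), (∀ i, Continuous (e i)) →
        Real.exp L ≤ |a| → |a| ≤ Real.exp (L + 1) → Real.exp (-((L + 1) / 4000)) ≤ |U 0| → DC D τ α →
        -(et i / 2 * (J * (n + 5) : ℕ) * L) ≤ y →
        lawL d {w | et (i + 1) ≤ volume.real {θ : Td d | Pool.Agent.Helper82.AN.sq α (frc γ e U w) θ ∈ EvS a L i n J y}} ≤
          ENNReal.ofReal (Real.exp (-(G * (J * (n + 5) : ℕ) * L))) := by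
  obtain ⟨C, hC, H⟩ := hexp
  obtain ⟨Z, hZ⟩ : ∃ Z, Z = 21 * G + 60 + 50 * (2 * Real.log C + 78) := ⟨_, rfl⟩
  have hlC : 0 ≤ Real.log C := Real.log_nonneg hC
  have hZ21 : 21 * G ≤ Z := by rw [hZ]; linarith
  have hZ0 : 0 ≤ Z := by linarith
  have hdR : (0:ℝ) < d := by exact_mod_cast hd
  have hτ : 0 < τ := lt_of_lt_of_le (by positivity) h1
  have hx0 : 0 < x := lt_trans (by positivity) h2
  refine ⟨60 + Z, KK Z, fun i => KK_le hZ0 i, fun D hD => ?_⟩
  obtain ⟨C', hC', HA⟩ := Pool.Agent.Helper10.AF.amp_ok hd hγ h1 h2 D hD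
  refine ⟨C', hC', fun L hL i n J hJ hn hnx k e U a α y he ha ha' hU hα hy => ?_⟩
  have hL1 : 1 ≤ L := hC'.trans hL
  have hp := pp_pos i
  have hp1 := pp_pos (i + 1)
  have hei := et_pos i
  have hei1 := et_pos (i + 1)
  have hU0 : U 0 ≠ 0 := by
    intro h0
    rw [h0, abs_zero] at hU
    exact absurd hU (not_le.2 (Real.exp_pos _))
  have ha1 : 1 ≤ |a| := by
    have e1 := Real.add_one_le_exp L
    linarith
  -- the number of translates
  obtain ⟨M, hM⟩ : ∃ M : ℕ, M = ⌈20 * G / (et (i + 1) * (pp i * et i))⌉₊ := ⟨_, rfl⟩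
  have hq0 : 0 < et (i + 1) * (pp i * et i) := by positivity
  have hM1 : 1 ≤ M := by
    rw [hM, Nat.one_le_ceil_iff]
    positivity
  have hMl : 20 * G / (et (i + 1) * (pp i * et i)) ≤ M := by
    rw [hM]
    exact Nat.le_ceil _
  have hMu : (M:ℝ) ≤ 21 * G / (et (i + 1) * (pp i * et i)) := by
    have e1 : (M:ℝ) < 20 * G / (et (i + 1) * (pp i * et i)) + 1 := by
      rw [hM]
      exact Nat.ceil_lt_add_one (by positivity)
    have e2 : 1 ≤ G / (et (i + 1) * (pp i * et i)) := by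
      rw [le_div_iff₀ hq0]
      have e3 := et_le (i + 1)
      have e4 := pp_le i
      have e5 := et_le i
      have e6 : pp i * et i ≤ 1 := by nlinarith
      have e7 : et (i + 1) * (pp i * et i) ≤ 1 := by nlinarith
      linarith
    have e3 : 21 * G / (et (i + 1) * (pp i * et i)) = 20 * G / (et (i + 1) * (pp i * et i)) + G / (et (i + 1) * (pp i * et i)) := by
      ring
    linarith
  have hN1 : 1 ≤ J * (n + 5) := Nat.mul_pos hJ (by omega)
  obtain ⟨r₀, N, P, β, hr0, hβ, hNN, hPP, hint, hamp⟩ := HA (J * (n + 5)) M α hN1 hM1 hα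
  have hnoise := noise_le (a := a) (u := U 0) hC' hL hJ hx0 hx hZ21 hM1 hMu hnx ha hU hamp
  -- the set
  obtain ⟨Q, hQ⟩ : ∃ Q : ℝ, Q = Real.exp (pp i * et i / 10 * (J * (n + 5) : ℕ) * L) := ⟨_, rfl⟩
  have hQ1 : 1 ≤ Q := by
    rw [hQ]
    exact Real.one_le_exp (by positivity)
  have hbase := base_le (i := i) (n := n) (a := a) hC hG hL1 hJ hZ hn ha' hy
  have hy' : 0 ≤ et i * (J * (n + 5) : ℕ) * L + y := by
    have e1 : et i * (J * (n + 5) : ℕ) * L = 2 * (et i / 2 * (J * (n + 5) : ℕ) * L) := by ring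
    have e2 : 0 ≤ et i / 2 * (J * (n + 5) : ℕ) * L := by positivity
    rw [e1]
    linarith
  have hmeas : MeasurableSet {q : Ow d × Td d | Pool.Agent.Helper82.AN.sq α (frc γ e U q.1) q.2 ∈ EvS a L i n J y} :=
    sq_frc_meas γ he U α (EvS_meas (fun a n {ρ δ cap} h1 h2 => Pool.Agent.Helper4.AF.rr_meas a n h1 h2) a (by linarith) i n J y)
  have hexp2 : ∀ θ : Td d, ∫⁻ w, ∏ l, (1 + ENNReal.ofReal Q *
      {w : Ow d | (w, θ + β l) ∈ {q : Ow d × Td d | Pool.Agent.Helper82.AN.sq α (frc γ e U q.1) q.2 ∈ EvS a L i n J y}}.indicator 1 w)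
        ∂lawL d ≤ ENNReal.ofReal (Real.exp (M * (J + 2))) := by
    intro θ
    have e1 := H d γ k e U α r₀ a (Real.exp (-(pp i * n * L))) (Real.exp (-(2 * pp i * n * L))) (2 * n * L)
      (Real.exp (-(pp (i + 1) * (J * (n + 5) : ℕ) * L))) (Real.exp (-(2 * pp (i + 1) * (J * (n + 5) : ℕ) * L)))
      (2 * (J * (n + 5) : ℕ) * L) (et i * (J * (n + 5) : ℕ) * L + y) (pp i) Q n J M N P (fun l => θ + β l) hγ he hU0 hr0
      (Pool.Agent.Helper82.AN.SepR_add hβ θ) hNN hPP hint ha1 (Real.exp_pos _)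
      (Real.exp_le_one_iff.2 (by rw [neg_nonpos]; positivity)) (Real.exp_pos _)
      (Real.exp_le_one_iff.2 (by rw [neg_nonpos]; positivity)) (Real.exp_pos _) (Real.exp_pos _) hp
      ((pp_le i).trans (by norm_num)) (by positivity)
      (by
        push_cast
        have : (0:ℝ) ≤ J * L := by positivity
        nlinarith)
      (by
        rw [Real.exp_le_exp, neg_le_neg_iff]
        exact le_of_eq (by ring)) hy' (by linarith) hnoise
    rw [← EvS_eq] at e1
    have e2 : ∀ w : Ow d, ∏ l, (1 + ENNReal.ofReal Q *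
        {w : Ow d | (w, θ + β l) ∈ {q : Ow d × Td d | Pool.Agent.Helper82.AN.sq α (frc γ e U q.1) q.2 ∈ EvS a L i n J y}}.indicator 1 w) =
        ∏ l, (1 + ENNReal.ofReal Q * (EvS a L i n J y).indicator 1
          (Pool.Agent.Helper82.AN.sq α (frc γ e U w) (θ + β l))) := by
      intro w
      refine Finset.prod_congr rfl fun l _ => ?_
      congr 2
    simp_rw [e2]
    refine e1.trans ?_
    have e3 : Real.exp J * (1 + Q * (4 / (Real.exp (-(2 * pp (i + 1) * (J * (n + 5) : ℕ) * L)) *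
        Real.exp (-(pp (i + 1) * (J * (n + 5) : ℕ) * L)) ^ 2)) * Real.exp (-(pp i * (et i * (J * (n + 5) : ℕ) * L + y))) *
        (C * (|a| + 1) ^ 26 * (C / Real.exp (-(pp i * n * L))) ^ (12 * pp i)) ^ J) ≤ Real.exp (J + 2) := by
      rw [← hQ] at hbase
      have e4 : Real.exp ((J:ℝ) + 2) = Real.exp J * Real.exp 2 := Real.exp_add _ _
      have e5 : (5:ℝ) ≤ Real.exp 2 := by
        have e6 : Real.exp 2 = Real.exp 1 * Real.exp 1 := by rw [← Real.exp_add]; norm_num
        have e7 := Real.exp_one_gt_d9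
        rw [e6]
        nlinarith
      rw [e4]
      refine mul_le_mul_of_nonneg_left ?_ (Real.exp_pos _).le
      linarith
    calc _ ≤ (ENNReal.ofReal (Real.exp (J + 2))) ^ M := by
          gcongr
      _ = ENNReal.ofReal (Real.exp (M * (J + 2))) := by
          rw [← ENNReal.ofReal_pow (Real.exp_pos _).le, ← Real.exp_nat_mul]
  have hconc := Pool.Agent.Helper33.AF.conc hmeas hQ1 hexp2 (et (i + 1))
  refine hconc.trans ?_
  rw [← ENNReal.ofReal_mul (Real.exp_pos _).le, ← Real.exp_add]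
  refine ENNReal.ofReal_le_ofReal ?_
  rw [Real.exp_le_exp, hQ, Real.log_exp]
  exact final_le hG hL1 hJ hC hZ hn hMl

end Pool.Agent.Helper25.AF
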